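import Pool.Agent.Q176.VV.Asm4

/-!
# Vanishing viscosity: the adjoint measures do not converge in general

Negative answer to Q1 of MP_e9de1a_an, in dimension one, for `H(x,p) = p²/2`.
-/

open MeasureTheory Filter Topology Set

namespace Pool.Agent.Results.MP_e9de1a_an.NoLimit

open VV176

/-- There are a C² Hamiltonian `H` on `𝕋 × ℝ`, convex in `p`, satisfying (A1), a datum
`g ∈ C²(𝕋)`, a point `z`, a time `T > 0` and a constant `C` such that, for `u^ε` the classical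
solution of the viscous equation (`|u^ε_x| ≤ C`) and `σ^ε` the adjoint solution with
`σ^ε(T) = δ_z`, the integrals of the single continuous function `ψ(x, p, t) = p` against the
measures `μ^{ε,z}` have two different limits along two sequences `ε → 0`. So `μ^{ε,z}` has two
different weak subsequential limits. -/
theorem result :
    ∃ (H : ℝ → ℝ → ℝ) (g : ℝ → ℝ) (z T C : ℝ) (u : ℝ → ℝ → ℝ → ℝ) (σ : ℝ → ℝ → Measure ℝ),
      ContDiff ℝ 2 (fun q : ℝ × ℝ => H q.1 q.2) ∧ (∀ x p, H (x + 1) p = H x p) ∧ A1 H ∧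
      (∀ x, ConvexOn ℝ univ (H x)) ∧ ContDiff ℝ 2 g ∧ (∀ x, g (x + 1) = g x) ∧ 0 < T ∧
      (∀ ε, 0 < ε → ViscousSolution H g ε (u ε) ∧ AdjointSolution H (u ε) ε z T (σ ε) ∧
        ∀ x t, |deriv (fun y => u ε y t) x| ≤ C) ∧
      ∃ (e e' : ℕ → ℝ) (L L' : ℝ), Tendsto e atTop (𝓝[>] 0) ∧ Tendsto e' atTop (𝓝[>] 0) ∧
        L ≠ L' ∧
        Tendsto (fun k => muInt (u (e k)) (σ (e k)) T (fun _ p _ => p)) atTop (𝓝 L) ∧
        Tendsto (fun k => muInt (u (e' k)) (σ (e' k)) T (fun _ p _ => p)) atTop (𝓝 L') := by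
  obtain ⟨C, hC⟩ := main_eps
  obtain ⟨e, e', L, L', he, he', hL, h1, h2⟩ := two_limits
  have hpi := Real.pi_pos
  refine ⟨fun _ p => p ^ 2 / 2, VV176.g, 0, 1 / (4 * Real.pi ^ 2), C, uu, ss, by fun_prop,
    fun _ _ => rfl, A1_half_sq, ?_, g_contDiff, taskPer.1, by positivity,
    fun ε hε => ⟨(hC ε hε).1, (hC ε hε).2.1, (hC ε hε).2.2.1⟩, e, e', L, L', he, he', hL, ?_, ?_⟩
  · intro _
    have h := (Even.convexOn_pow (𝕜 := ℝ) (n := 2) (by decide)).smul (by norm_num : (0:ℝ) ≤ 1 / 2)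
    refine h.congr ?_
    intro p _
    simp only [smul_eq_mul]
    ring
  · refine h1.congr' ?_
    have : ∀ᶠ k in atTop, 0 < e k := (tendsto_nhdsWithin_iff.1 he).2
    filter_upwards [this] with k hk
    exact (hC (e k) hk).2.2.2.symm
  · refine h2.congr' ?_
    have : ∀ᶠ k in atTop, 0 < e' k := (tendsto_nhdsWithin_iff.1 he').2
    filter_upwards [this] with k hk
    exact (hC (e' k) hk).2.2.2.symm

end Pool.Agent.Results.MP_e9de1a_an.NoLimit
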